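import Pool.Agent.H88.SK.Fin

/-! The `C²` (and `C^r`) closing lemma for fibred diffeomorphisms of the torus `T^d × T^m`. -/

set_option autoImplicit false

namespace Pool.Agent.Results.MP_43af95_an.FibredClosing

open Pool.Agent.H88.SK

/-- Let `f` be a `C²` diffeomorphism of `T^d × T^m` of the form
`f(b, y) = (B_1(b_1), …, B_d(b_d), g_1(b, y_1), …, g_m(b, y_m))` with orientation preserving circle
maps `g_l(b, ·)`. Let `x = (b, y)` be recurrent, or nonwandering and such that for each `i` the map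
`B_i` is a rotation or `b_i` is not periodic for `B_i`. For every `η > 0` there is a vector
`w ∈ ℝ^d × ℝ^m`, `‖w‖ ≤ η`, such that `x` is periodic for the map `z ↦ f(z) + w`. -/
theorem result (d m : ℕ) (f : Equiv.Perm (X d m)) (hf : Diff2 d m f)
    (B : Fin d → Equiv.Perm UnitAddCircle) (hB : Fibred d m f B) (x : X d m)
    (hx : Recurrent d m f x ∨ (NonWandering d m f x ∧
      ∀ i, IsRotation (B i) ∨ ∀ n : ℕ, 1 ≤ n → (B i ^ n) (x.1 i) ≠ x.1 i)) (η : ℝ) (hη : 0 < η) :
    ∃ w : V d m, ‖w‖ ≤ η ∧ ∃ n : ℕ, 1 ≤ n ∧ (shift d m f w ^ n) x = x :=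
  final d m f hf B hB x hx η hη

end Pool.Agent.Results.MP_43af95_an.FibredClosing
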