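import Pool.Agent.H63.GR.Generic

/-! `C²` closing lemma on every compact manifold for the points with golden returns; for generic
diffeomorphisms these are all the `C²` closable points. -/

set_option autoImplicit false

open Set Function Topology Filter

namespace Pool.Agent.Results.MP_43af95_an.GoldenReturns

open Pool.Agent.H91.TCS Pool.Agent.H63.GRS

/-- Let `M` be a compact `C²` manifold without boundary and `s = log₂ ((1 + √5) / 2)`. A point `x`
has golden returns for `f` if for all `B` there are, arbitrarily close to `x`, points `y` with
`dist (f^m y, y) ≤ exp (- B m ^ s)` for some `m ≥ 1`. For every `C²` diffeomorphism `f` of `M` all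
points with golden returns are `C²` closable; and for `f` in a Baire set of `Diff²(M)` the set of
`C²` closable points, the set of points with golden returns and the closure of the set of periodic
points are equal. -/
theorem result (n : ℕ) (M : Type) [TopologicalSpace M] [T2Space M] [CompactSpace M]
    [ChartedSpace (E n) M] (hM : IsMfd n M) :
    (∀ f : Diff n M, {x | GoldenReturns n f.1 x} ⊆ {x | Closable n f.1 x}) ∧
    BaireC2 n {f : Diff n M | {x | Closable n f.1 x} = {x | GoldenReturns n f.1 x} ∧
      closure (Per f.1) = {x | GoldenReturns n f.1 x}} :=
  ⟨fun f x hx => Pool.Agent.H63.GR.closable_of_golden n M hM f.1 f.2 x hx,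
    Pool.Agent.H63.GR.final_generic n M hM⟩

end Pool.Agent.Results.MP_43af95_an.GoldenReturns
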