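import Pool.Agent.H88.CM.Fin

/-! Closing lemma on compact manifolds for perturbations that are small in the `C^{1,ω}` topology, for
every modulus of continuity `ω` with `ω(r) log(1/r) → ∞` as `r → 0`. -/

set_option autoImplicit false

namespace Pool.Agent.Results.MP_43af95_an.ModulusClosing

open Pool.Agent.H88.CS

/-- Let `M` be a compact `C²` manifold, `f` a `C²` diffeomorphism of `M`, `x` a recurrent or
nonwandering point of `f`, `ω` a modulus with `ω(r) log(1/r) → ∞` and `η > 0`. There is a `C²`
diffeomorphism `g` of `M` for which `x` is periodic and which is `η`-close to `f` in the `C^{1,ω}`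
sense on the given finite family of pairs of charts and compact sets. -/
theorem result (d : ℕ) (M : Type) [TopologicalSpace M] [T2Space M] [CompactSpace M]
    [ChartedSpace (E d) M] (hM : IsMfd d M) (f : Equiv.Perm M) (hf : Diff2 d f) (x : M)
    (hx : Recurrent f x ∨ NonWandering f x) (nt : ℕ) (φ ψ : Fin nt → Chart d M)
    (K : Fin nt → Set M) (hT : ∀ k, Test d f (φ k) (ψ k) (K k)) (ω : ℝ → ℝ) (hω : Modulus ω)
    (η : ℝ) (hη : 0 < η) :
    ∃ g : Equiv.Perm M, Diff2 d g ∧ (∃ m : ℕ, 1 ≤ m ∧ (g ^ m) x = x) ∧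
      ∀ k, Close d ω η f g (φ k) (ψ k) (K k) :=
  Pool.Agent.H88.CM.final d M hM f hf x hx nt φ ψ K hT ω hω η hη

end Pool.Agent.Results.MP_43af95_an.ModulusClosing
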