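import Pool.Agent.H91.TC.All

/-! The `C²` closing lemma for diffeomorphisms which commute with an action of a torus of large
dimension. -/

set_option autoImplicit false

open Set Function Topology Filter

namespace Pool.Agent.Results.MP_43af95_an.TorusSymmetry

open Pool.Agent.H91.TCS

/-- Let `M` be a compact `C²` manifold of dimension `n`, `f` a `C²` diffeomorphism of `M` which
commutes with a `C²` action `a` of `ℝ^k`, `k ≥ 3`, and `x` a point near which the action is a free
action of the torus `ℝ^k / ℤ^k`. Assume that `n < 2 k` and that `x` is recurrent, or nonwandering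
modulo the action; or that `x` has fast returns. Then for every `η > 0` and every finite family of
tests there is a `C²` diffeomorphism `g` of `M` for which `x` is periodic and which is `η`-close to
`f` in the `C²` sense on all the tests. -/
theorem result (n k : ℕ) (hk : 3 ≤ k) (M : Type) [TopologicalSpace M] [T2Space M] [CompactSpace M]
    [ChartedSpace (E n) M] (hM : IsMfd n M) (f : Equiv.Perm M) (hf : Diff2 n f) (a : E k → M → M)
    (ha : Action n k a) (hc : ∀ v y, f (a v y) = a v (f y)) (x : M) (hx : TorusAt a x)
    (hr : (n < 2 * k ∧ (Recurrent f x ∨ NonWanderingMod a f x)) ∨ FastReturns n k a f x)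
    (nt : ℕ) (φ ψ : Fin nt → Chart n M) (K : Fin nt → Set M)
    (hT : ∀ i, Test n f (φ i) (ψ i) (K i)) (η : ℝ) (hη : 0 < η) :
    ∃ g : Equiv.Perm M, Diff2 n g ∧ (∃ m : ℕ, 1 ≤ m ∧ (g ^ m) x = x) ∧
      ∀ i, Close2 n η f g (φ i) (ψ i) (K i) :=
  Pool.Agent.H91.TC.fin_of_main Pool.Agent.H91.TC.b_MAIN2 Pool.Agent.H91.TC.b_RECM n k hk M hM f hf
    a ha hc x hx hr nt φ ψ K hT η hη

end Pool.Agent.Results.MP_43af95_an.TorusSymmetry
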